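import Pool.Agent.H771R3.TH.Stmts

set_option autoImplicit false

/-! A solution gives a zero of `G`. -/

namespace Pool.Agent.H3R3.TH

open Polynomial Pool.Agent.H771R3.TH

theorem res1c (K : Type) [Field K] (l a m d m' d' v z x : K) (h1 : F l a m d x v = 0)
    (h2 : F l a m' d' x z = 0) : MM l a m d m' d' v z = 0 := by
  unfold F at h1 h2
  unfold MM
  linear_combination
    (-((-(l * v + m)) * (-(a * z * (z + 1))) - (-(l * z + m')) * (-(a * v * (v + 1)))) *
        (-(l * z + m')) +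
      ((-(l * v + m)) * (l * z ^ 2 + (a + l + m' - d') * z + m') -
        (-(l * z + m')) * (l * v ^ 2 + (a + l + m - d) * v + m)) *
        ((-(l * z + m')) * x + (l * z ^ 2 + (a + l + m' - d') * z + m'))) * h1 +
    (((-(l * v + m)) * (-(a * z * (z + 1))) - (-(l * z + m')) * (-(a * v * (v + 1)))) *
        (-(l * v + m)) -
      ((-(l * v + m)) * (l * z ^ 2 + (a + l + m' - d') * z + m') -
        (-(l * z + m')) * (l * v ^ 2 + (a + l + m - d) * v + m)) *
        ((-(l * v + m)) * x + (l * v ^ 2 + (a + l + m - d) * v + m))) * h2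

theorem res_zero {R : Type} [CommRing R] (f g : R[X]) (m n : ℕ) (hf : f.natDegree ≤ m)
    (hg : g.natDegree ≤ n) (hm : m ≠ 0) (r : R) (h1 : f.eval r = 0) (h2 : g.eval r = 0) :
    resultant f g m n = 0 := by
  obtain ⟨p, q, _, _, h⟩ := exists_mul_add_mul_eq_C_resultant f g hf hg (Or.inl hm)
  have h3 := congrArg (fun t : R[X] => t.eval r) h
  simp only [eval_add, eval_mul, h1, h2, zero_mul, add_zero, eval_C] at h3
  exact h3.symm

theorem taskRes1c : TaskRes1c := by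
  intro K _ l a m d m' d' v z x h1 h2
  exact res1c K l a m d m' d' v z x h1 h2

theorem taskSolG_of_lead (hL : TaskLead) : TaskSolG := by
  intro P x5 x6 x7 z2 z3 z4 hs
  obtain ⟨_, h1, h2, h3, h4, h5, h6⟩ := hs
  obtain ⟨d5, d7, _, _, dU, e5, e7, _, _, eU, _, _⟩ := hL ℂ P z2
  obtain ⟨_, _, d6, _, _, _, _, e6, _, _, _, _⟩ := hL ℂ P z3
  have m5 : M5 P z2 z3 = 0 := res1c ℂ _ _ _ _ _ _ _ _ x5 h1 h2
  have m6 : M6 P z3 z4 = 0 := res1c ℂ _ _ _ _ _ _ _ _ x6 h3 h4
  have m7 : M7 P z2 z4 = 0 := res1c ℂ _ _ _ _ _ _ _ _ x7 h6 h5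
  have hU : U P z2 z3 = 0 :=
    res_zero (M7p P z2) (M6p P z3) 4 4 d7 d6 (by norm_num) z4 (by rw [e7, m7]) (by rw [e6, m6])
  exact res_zero (M5p P z2) (Up P z2) 4 16 d5 dU (by norm_num) z3 (by rw [e5, m5])
    (by rw [eU, hU])

end Pool.Agent.H3R3.TH
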